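import Pool.Agent.helper3.FS.SpecE

/-! # FSE.SAT (helper65): the tail for separated families. Model: Pool/Agent/helper84/RT/ATL.lean. -/

set_option autoImplicit false

open Complex Metric Set Filter Topology MeasureTheory
open HY (UD T S hd UN RM)
open RT

noncomputable section

namespace FSE

theorem SAT (hMOB : HY.MOB_stmt) (hSA2 : SA2_stmt) (hKTM : KTM_stmt) (hABR : ABR_stmt) (hARO : ARO_stmt) (hAMV : AMV_stmt) (hACR : ACR_stmt) :
    SAT_stmt := by
  intro s ε hs hs1 hε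
  obtain ⟨κ₁, hκ₁, hκ₁1, hB⟩ := hSA2 s ε hs hs1 hε
  obtain ⟨κ₀, hκ₀, hκ₀1, hR⟩ := hABR s hs
  have habs : |(1 / 2 : ℝ)| = 1 / 2 := abs_of_pos (by norm_num)
  refine ⟨min κ₀ κ₁, lt_min hκ₀ hκ₁, (min_le_left _ _).trans hκ₀1, ?_⟩
  intro κ hκ hκm
  have hκ0 : κ ≤ κ₀ := hκm.trans (min_le_left _ _)
  have hκ1 : κ ≤ κ₁ := hκm.trans (min_le_right _ _)
  obtain ⟨C, hC, hB2⟩ := hB κ hκ hκ1
  refine ⟨C, hC, ?_⟩
  intro n
  induction n with
  | zero =>
    intro W hW I o hI y hy X hX hn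
    rw [pow_zero, mul_one]
    have h1 := hB2 W hW I o hI y hy X hX
    refine le_trans (le_of_eq ?_) h1
    refine Finset.sum_congr rfl fun p hp => ?_
    have h2 := hn p hp
    rw [zero_add, hARO.2.2.1] at h2
    rw [hKTM.2.1 p.2 h2.le]
  | succ n ih =>
    intro W hW I o hI y hy X hX hn
    obtain ⟨-, hcry, hwW, hlift, -⟩ := hACR s W hW y hy
    obtain ⟨hint, hav⟩ := hR κ hκ hκ0 W hW y hy
    have hro1 : ∀ m : ℕ, 1 / 2 ≤ ro (m + 1) := by
      intro m
      induction m with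
      | zero => rw [zero_add, hARO.2.2.1]
      | succ m ihm => exact ihm.trans (hARO.1 (m + 1)).2.2.1.le
    have hx2 : ∀ p ∈ X, p.2 ∈ UD ∧ 1 / 2 < ‖p.2‖ := by
      intro p hp
      exact ⟨(hX p hp).2.1, lt_of_le_of_lt (hro1 (n + 1)) (hn p hp)⟩
    have hsum : ∑ p ∈ X, cr W (o p.1) ^ κ * Real.log (1 / ‖p.2‖) =
        Real.circleAverage (fun w : ℂ => ∑ p ∈ X, cr W (o p.1) ^ κ • Real.log (1 / ‖T w p.2‖)) 0 (1 / 2) := by
      rw [Real.circleAverage_fun_sum (fun p hp => (hAMV p.2 (hx2 p hp).1 (hx2 p hp).2).1.const_fun_smul)]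
      refine Finset.sum_congr rfl fun p hp => ?_
      rw [Real.circleAverage_fun_smul, smul_eq_mul, (hAMV p.2 (hx2 p hp).1 (hx2 p hp).2).2]
    have hint1 : CircleIntegrable (fun w : ℂ => ∑ p ∈ X, cr W (o p.1) ^ κ • Real.log (1 / ‖T w p.2‖)) 0 (1 / 2) := by
      have h1 := CircleIntegrable.sum (c := (0 : ℂ)) (R := (1 / 2 : ℝ)) X
        (f := fun p : ℕ × ℂ => fun w : ℂ => cr W (o p.1) ^ κ • Real.log (1 / ‖T w p.2‖))
        (fun p hp => (hAMV p.2 (hx2 p hp).1 (hx2 p hp).2).1.const_fun_smul)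
      have h2 : (∑ p ∈ X, (fun w : ℂ => cr W (o p.1) ^ κ • Real.log (1 / ‖T w p.2‖))) =
          fun w : ℂ => ∑ p ∈ X, cr W (o p.1) ^ κ • Real.log (1 / ‖T w p.2‖) := by
        funext w
        rw [Finset.sum_apply]
      rwa [h2] at h1
    set A : ℝ := C * (1 - κ / 8) ^ n with hA
    have hη : 0 < 1 - κ / 8 := by linarith
    have hA0 : 0 ≤ A := by
      rw [hA]
      exact mul_nonneg hC (pow_nonneg hη.le n)
    have hint2 : CircleIntegrable (fun w : ℂ => A • cr W (rm W y w) ^ κ) 0 (1 / 2) := hint.const_smul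
    have hmono : ∀ w ∈ sphere (0 : ℂ) |(1 / 2 : ℝ)|, ∑ p ∈ X, cr W (o p.1) ^ κ • Real.log (1 / ‖T w p.2‖) ≤ A • cr W (rm W y w) ^ κ := by
      intro w hw
      have hwn : ‖w‖ = 1 / 2 := by
        rw [habs, mem_sphere_zero_iff_norm] at hw
        exact hw
      have hwU : w ∈ UD := by
        show w ∈ ball (0 : ℂ) 1
        rw [mem_ball_zero_iff, hwn]
        norm_num
      obtain ⟨u, hu, hul⟩ := hlift w hwU
      have hu0 : u ≠ 0 := by
        intro h
        rw [h, norm_zero] at hu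
        exact zero_ne_one hu
      obtain ⟨-, -, -, -, -, hTinj, -⟩ := hMOB w hwU
      classical
      have hinj : ∀ p ∈ X, ∀ p' ∈ X, ((p.1, u * T w p.2) : ℕ × ℂ) = (p'.1, u * T w p'.2) → p = p' := by
        intro p hp p' hp' h
        rw [Prod.mk.injEq] at h
        refine Prod.ext h.1 ?_
        exact hTinj (hx2 p hp).1 (hx2 p' hp').1 (mul_left_cancel₀ hu0 h.2)
      have h1 := ih W hW I o hI (rm W y w) (hwW w hwU).1 (X.image fun p => ((p.1, u * T w p.2) : ℕ × ℂ)) (by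
        intro p' hp'
        obtain ⟨p, hp, rfl⟩ := Finset.mem_image.1 hp'
        exact ⟨(hX p hp).1, hul (o p.1) p.2 (hX p hp).2⟩) (by
        intro p' hp'
        obtain ⟨p, hp, rfl⟩ := Finset.mem_image.1 hp'
        simp only
        rw [norm_mul, hu, one_mul]
        exact hARO.2.2.2.2 (n + 1) w p.2 hwn (hx2 p hp).1 (hn p hp))
      rw [Finset.sum_image (fun p hp p' hp' h => hinj p hp p' hp' h)] at h1
      have h2 : ∑ p ∈ X, cr W (o ((p.1, u * T w p.2) : ℕ × ℂ).1) ^ κ * Real.log (1 / ‖((p.1, u * T w p.2) : ℕ × ℂ).2‖) =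
          ∑ p ∈ X, cr W (o p.1) ^ κ • Real.log (1 / ‖T w p.2‖) := by
        refine Finset.sum_congr rfl fun p _ => ?_
        simp only
        rw [norm_mul, hu, one_mul, smul_eq_mul]
      rw [h2] at h1
      rw [smul_eq_mul]
      exact h1
    have h1 := Real.circleAverage_mono hint1 hint2 hmono
    rw [← hsum, Real.circleAverage_fun_smul, smul_eq_mul] at h1
    have h2 : A * Real.circleAverage (fun w : ℂ => cr W (rm W y w) ^ κ) 0 (1 / 2) ≤ A * ((1 - κ / 8) * cr W y ^ κ) :=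
      mul_le_mul_of_nonneg_left hav hA0
    refine (h1.trans h2).trans (le_of_eq ?_)
    rw [hA, pow_succ]
    ring

end FSE
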